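import Pool.Agent.P8H10.KM.StmL

/-!
Package LIO of the project KM: Liouville inequality.
-/

set_option autoImplicit false

open Finset Filter Topology Complex Polynomial Pool.Agent.R347.LW

namespace Pool.Agent.P8H4.KM

open Pool.Agent.P8H10.KM

/-! ### Roots of polynomials with bounded coefficients -/

theorem exists_RB {a : ℂ} (ha : IsAlgebraic ℚ a) : ∃ m : ℕ, RB m m a := by
  obtain ⟨P, hP0, hP⟩ := (IsFractionRing.isAlgebraic_iff ℤ ℚ ℂ).2 ha
  refine ⟨P.natDegree + ∑ i ∈ range (P.natDegree + 1), (P.coeff i).natAbs, P, hP0,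
    Nat.le_add_right _ _, fun n => ?_, hP⟩
  by_cases hn : n ≤ P.natDegree
  · have h1 : (P.coeff n).natAbs ≤ ∑ i ∈ range (P.natDegree + 1), (P.coeff i).natAbs :=
      Finset.single_le_sum (f := fun i => (P.coeff i).natAbs) (fun _ _ => Nat.zero_le _)
        (mem_range.2 (by omega))
    rw [← Int.natCast_natAbs]
    exact_mod_cast h1.trans (Nat.le_add_left _ _)
  · rw [coeff_eq_zero_of_natDegree_lt (by omega), abs_zero]
    positivity

theorem RB_root {m v : ℕ} (hv : 1 ≤ v) {a β : ℂ} (ha : RB m m a) (hβ : β ^ v = a) :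
    RB (m * v) m β := by
  obtain ⟨P, hP0, hPd, hPc, hP⟩ := ha
  refine ⟨expand ℤ v P, ?_, ?_, fun n => ?_, ?_⟩
  · exact (expand_ne_zero (by omega)).2 hP0
  · rw [natDegree_expand]
    exact Nat.mul_le_mul_right v hPd
  · rw [coeff_expand (by omega)]
    split_ifs
    · exact hPc _
    · simp
  · rw [expand_aeval, hβ, hP]

/-! ### Sizes in a Galois number field -/

section sizes

variable {L : IntermediateField ℚ ℂ} {D : ℕ} {R : ℝ}

/-- `D ^ E z` is integral and the conjugates are at most `R ^ E` -/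
def Gd (L : IntermediateField ℚ ℂ) (D : ℕ) (R : ℝ) (E : ℕ) (z : L) : Prop :=
  IsIntegral ℤ ((D : L) ^ E * z) ∧ ∀ σ : L ≃ₐ[ℚ] L, ‖((σ z : L) : ℂ)‖ ≤ R ^ E

theorem Gd.one (L : IntermediateField ℚ ℂ) (D : ℕ) (R : ℝ) : Gd L D R 0 1 := by
  refine ⟨?_, fun σ => ?_⟩
  · rw [pow_zero, one_mul]
    exact isIntegral_one
  · rw [map_one]
    simp

theorem Gd.mul {E E' : ℕ} {z z' : L} (hR : 0 ≤ R) (h : Gd L D R E z) (h' : Gd L D R E' z') :
    Gd L D R (E + E') (z * z') := by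
  refine ⟨?_, fun σ => ?_⟩
  · have h1 : (D : L) ^ (E + E') * (z * z') = ((D : L) ^ E * z) * ((D : L) ^ E' * z') := by
      rw [pow_add]
      ring
    rw [h1]
    exact h.1.mul h'.1
  · rw [map_mul, pow_add]
    push_cast
    rw [norm_mul]
    exact mul_le_mul (h.2 σ) (h'.2 σ) (norm_nonneg _) (pow_nonneg hR _)

theorem Gd.pow {E : ℕ} {z : L} (hR : 0 ≤ R) (h : Gd L D R E z) (e : ℕ) :
    Gd L D R (e * E) (z ^ e) := by
  induction e with
  | zero =>
    rw [zero_mul, pow_zero]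
    exact Gd.one L D R
  | succ e ih =>
    rw [Nat.succ_mul, pow_succ]
    exact ih.mul hR h

theorem Gd.prod {ι : Type} (s : Finset ι) (hR : 0 ≤ R) (E : ι → ℕ) (z : ι → L)
    (h : ∀ i ∈ s, Gd L D R (E i) (z i)) : Gd L D R (∑ i ∈ s, E i) (∏ i ∈ s, z i) := by
  classical
  induction s using Finset.induction_on with
  | empty =>
    rw [sum_empty, prod_empty]
    exact Gd.one L D R
  | insert i s hi ih =>
    rw [sum_insert hi, prod_insert hi]
    exact (h i (mem_insert_self _ _)).mul hR (ih fun j hj => h j (mem_insert_of_mem hj))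

theorem Gd.mono {E E' : ℕ} {z : L} (hR : 1 ≤ R) (h : Gd L D R E z) (hE : E ≤ E') :
    Gd L D R E' z := by
  refine ⟨?_, fun σ => (h.2 σ).trans (pow_le_pow_right₀ hR hE)⟩
  obtain ⟨e, rfl⟩ := Nat.exists_eq_add_of_le hE
  have h1 : (D : L) ^ (E + e) * z = (D : L) ^ e * ((D : L) ^ E * z) := by
    rw [pow_add]
    ring
  rw [h1]
  have h2 : IsIntegral ℤ (algebraMap ℤ L ((D : ℤ) ^ e)) := isIntegral_algebraMap
  have h3 : IsIntegral ℤ ((D : L) ^ e) := by simpa using h2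
  exact h3.mul h.1

end sizes

/-! ### The lower bound -/

/-- a sum of products of powers of numbers with bounded roots is the root of a bounded polynomial -/
theorem RB_sum {n s : ℕ} (m₀ d : ℕ) (c : Fin n → ℂ) (β β' : Fin s → ℂ)
    (hc : ∀ j, RB d m₀ (c j)) (hβ : ∀ k, RB d m₀ (β k)) (hβ' : ∀ k, RB d m₀ (β' k))
    (e e' : Fin n → Fin s → ℕ) (E : ℕ) (hE : ∀ j, 1 + ∑ k, (e j k + e' j k) ≤ E)
    (G N' : ℕ) (hG : ((n + (s + s)) * d + 1) ^ ((n + (s + s)) * d + 1) ≤ G)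
    (hN' : 2 ^ G * (2 * ((m₀ ^ (n + (s + s))) ^ E * (n * (m₀ + 1) ^ E + 1))) ^ G ≤ N') :
    RB G N' (∑ j, c j * ∏ k, (β k ^ e j k * β' k ^ e' j k)) := by
  classical
  obtain ⟨L, hL1, hL2, hL4, A, D, hA, hD1, hDN, hAI, hAR⟩ := common_field d m₀
    (ι := Fin n ⊕ (Fin s ⊕ Fin s)) (Sum.elim c (Sum.elim β β')) (by
      rintro (j | (k | k))
      exacts [hc j, hβ k, hβ' k])
  have hcard : Fintype.card (Fin n ⊕ (Fin s ⊕ Fin s)) = n + (s + s) := by simp
  rw [hcard] at hL4 hDN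
  have hR0 : (0 : ℝ) ≤ (m₀ : ℝ) + 1 := by positivity
  have hR1 : (1 : ℝ) ≤ (m₀ : ℝ) + 1 := by
    have : (0 : ℝ) ≤ m₀ := by positivity
    linarith
  have hg : ∀ i, Gd L D ((m₀ : ℝ) + 1) 1 (A i) := fun i => by
    refine ⟨?_, fun σ => ?_⟩
    · rw [pow_one]
      exact hAI i
    · rw [pow_one]
      exact hAR i σ
  obtain ⟨Z, hZ⟩ : ∃ Z : L, Z = ∑ j, A (Sum.inl j) *
      ∏ k, (A (Sum.inr (Sum.inl k)) ^ e j k * A (Sum.inr (Sum.inr k)) ^ e' j k) := ⟨_, rfl⟩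
  have hZc : (Z : ℂ) = ∑ j, c j * ∏ k, (β k ^ e j k * β' k ^ e' j k) := by
    rw [hZ]
    push_cast
    refine Finset.sum_congr rfl fun j _ => ?_
    have h1 : ((A (Sum.inl j) : L) : ℂ) = c j := hA _
    rw [h1]
    congr 1
    refine Finset.prod_congr rfl fun k _ => ?_
    have h2 : ((A (Sum.inr (Sum.inl k)) : L) : ℂ) = β k := hA _
    have h3 : ((A (Sum.inr (Sum.inr k)) : L) : ℂ) = β' k := hA _
    rw [h2, h3]
  have hterm : ∀ j, Gd L D ((m₀ : ℝ) + 1) E (A (Sum.inl j) *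
      ∏ k, (A (Sum.inr (Sum.inl k)) ^ e j k * A (Sum.inr (Sum.inr k)) ^ e' j k)) := by
    intro j
    refine Gd.mono hR1 ((hg _).mul hR0 (Gd.prod univ hR0 (fun k => e j k * 1 + e' j k * 1) _
      fun k _ => ((hg _).pow hR0 _).mul hR0 ((hg _).pow hR0 _))) ?_
    simpa using hE j
  have hZI : IsIntegral ℤ (((D ^ E : ℕ) : L) * Z) := by
    rw [hZ, Finset.mul_sum]
    push_cast
    exact IsIntegral.sum _ fun j _ => (hterm j).1
  have hZR : ∀ σ : L ≃ₐ[ℚ] L, ‖((σ Z : L) : ℂ)‖ ≤ n * ((m₀ : ℝ) + 1) ^ E + 1 := by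
    intro σ
    rw [hZ, map_sum]
    have h1 : ((∑ j, σ (A (Sum.inl j) *
      ∏ k, (A (Sum.inr (Sum.inl k)) ^ e j k * A (Sum.inr (Sum.inr k)) ^ e' j k)) : L) : ℂ) =
      ∑ j, ((σ (A (Sum.inl j) *
      ∏ k, (A (Sum.inr (Sum.inl k)) ^ e j k * A (Sum.inr (Sum.inr k)) ^ e' j k)) : L) : ℂ) := by
      rw [AddSubmonoidClass.coe_finsetSum]
    rw [h1]
    refine (norm_sum_le _ _).trans ?_
    refine (Finset.sum_le_sum fun j _ => (hterm j).2 σ).trans ?_
    rw [Finset.sum_const, Finset.card_univ, Fintype.card_fin, nsmul_eq_mul]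
    linarith
  have hGpos : 1 ≤ G := le_trans (Nat.one_le_pow _ _ (Nat.succ_pos _)) hG
  have hmain := poly_prod L 1 (fun j => if j = 0 then -Z else 1) (D ^ E) (Nat.one_le_pow _ _ hD1)
    (n * ((m₀ : ℝ) + 1) ^ E + 1) (by simp) (fun j _ => ?_) (fun j _ σ => ?_) (Z : ℂ) ?_ N' ?_
  · rw [← hZc]
    refine hmain.mono ?_ le_rfl
    rw [one_mul]
    exact hL4.trans hG
  · split_ifs
    · rw [mul_neg]
      exact hZI.neg
    · rw [mul_one]
      have h2 : IsIntegral ℤ (algebraMap ℤ L ((D ^ E : ℕ) : ℤ)) := isIntegral_algebraMap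
      simpa using h2
  · split_ifs
    · rw [map_neg]
      push_cast
      rw [norm_neg]
      exact hZR σ
    · rw [map_one]
      have : (0 : ℝ) ≤ n * ((m₀ : ℝ) + 1) ^ E := by positivity
      simp only [OneMemClass.coe_one, norm_one]
      linarith
  · rw [Finset.sum_range_succ, Finset.sum_range_one]
    simp
  · have h1 : ((2 ^ G * (2 * ((m₀ ^ (n + (s + s))) ^ E * (n * (m₀ + 1) ^ E + 1))) ^ G : ℕ) : ℝ) ≤
        N' := by exact_mod_cast hN'
    refine le_trans ?_ h1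
    push_cast
    have hgG : Fintype.card (L ≃ₐ[ℚ] L) ≤ G := hL4.trans hG
    have hDR : (D : ℝ) ≤ (m₀ : ℝ) ^ (n + (s + s)) := by exact_mod_cast hDN
    have hD1R : (1 : ℝ) ≤ D := by exact_mod_cast hD1
    have hB : (1 : ℝ) ≤ n * ((m₀ : ℝ) + 1) ^ E + 1 := by
      have : (0 : ℝ) ≤ n * ((m₀ : ℝ) + 1) ^ E := by positivity
      linarith
    have hm1 : (1 : ℝ) ≤ (m₀ : ℝ) ^ (n + (s + s)) := hD1R.trans hDR
    have hbase : (1 : ℝ) ≤ 2 * (((m₀ : ℝ) ^ (n + (s + s))) ^ E *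
        (n * ((m₀ : ℝ) + 1) ^ E + 1)) := by
      have := one_le_mul_of_one_le_of_one_le (one_le_pow₀ hm1 (n := E)) hB
      linarith
    refine mul_le_mul ?_ ?_ (by positivity) (by positivity)
    · exact pow_le_pow_right₀ (by norm_num) (by rw [one_mul]; exact hgG)
    · refine le_trans ?_ (pow_le_pow_right₀ hbase hgG)
      refine pow_le_pow_left₀ (by positivity) ?_ _
      have h2 : ((D : ℝ) ^ E) ≤ ((m₀ : ℝ) ^ (n + (s + s))) ^ E := by gcongr
      calc ((1 : ℝ) + 1) * ((D : ℝ) ^ E * (n * ((m₀ : ℝ) + 1) ^ E + 1)) =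
          2 * ((D : ℝ) ^ E * (n * ((m₀ : ℝ) + 1) ^ E + 1)) := by ring
        _ ≤ _ := by gcongr

theorem liou : ∃ κ₀ : ℕ, ∀ Y : ℕ, 2 ≤ Y → ∀ z : ℂ, RB Y Y z → z ≠ 0 →
    ((tow κ₀ Y : ℕ) : ℝ)⁻¹ ≤ ‖z‖ := by
  obtain ⟨κ₀, hκ₀⟩ := quantE
  refine ⟨κ₀, fun Y hY z hz hz0 => ?_⟩
  have h1 := hκ₀ Y hY 1 Y Y (by omega) le_rfl le_rfl (fun _ => 0) (fun _ => z)
    (fun a b _ => Subsingleton.elim a b) ⟨0, hz0⟩ (fun _ => ?_) (fun _ => hz)
  · simpa using h1
  · refine ⟨X, X_ne_zero, natDegree_X_le.trans (by omega), fun n => ?_, by simp⟩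
    rw [coeff_X]
    split_ifs
    · rw [abs_one]
      exact_mod_cast (by omega : 1 ≤ Y)
    · rw [abs_zero]
      positivity

/-- the bounds -/
def fd (n s m₀ Y : ℕ) : ℕ := m₀ * Y ^ (s * n)
/-- the bounds -/
def fE (n s X₀ Y : ℕ) : ℕ := 1 + s * (X₀ * Y ^ (s * n))
/-- the bounds -/
def fG (n s m₀ Y : ℕ) : ℕ :=
  ((n + (s + s)) * fd n s m₀ Y + 1) ^ ((n + (s + s)) * fd n s m₀ Y + 1)
/-- the bounds -/
def fF (n s m₀ X₀ Y : ℕ) : ℕ :=
  2 ^ fG n s m₀ Y * (2 * ((m₀ ^ (n + (s + s))) ^ fE n s X₀ Y * (n * (m₀ + 1) ^ fE n s X₀ Y + 1))) ^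
    fG n s m₀ Y

theorem exists_tow (n s m₀ X₀ : ℕ) : ∃ h' : ℕ, ∀ Y : ℕ, 2 ≤ Y →
    fG n s m₀ Y ≤ tow h' Y ∧ fF n s m₀ X₀ Y ≤ tow h' Y := by
  let Ω : Type := {Y : ℕ // 2 ≤ Y}
  let Yf : Ω → ℕ := fun ω => ω.1
  have pc : ∀ a : ℕ, EL Yf (fun _ => ((a : ℕ) : ℝ)) := fun a => EL.const (a : ℝ) (by positivity)
  have pY : EL Yf (fun ω => (Yf ω : ℝ)) := EL.base
  have pP : EL Yf (fun ω => ((Yf ω ^ (s * n) : ℕ) : ℝ)) :=
    (pY.npow (fun _ => s * n) (pc (s * n))).of_le (fun ω => by positivity)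
      (fun ω => by push_cast; rfl)
  have pd : EL Yf (fun ω => ((fd n s m₀ (Yf ω) : ℕ) : ℝ)) :=
    ((pc m₀).mul pP).of_le (fun ω => by positivity) (fun ω => by unfold fd; push_cast; rfl)
  have pE : EL Yf (fun ω => ((fE n s X₀ (Yf ω) : ℕ) : ℝ)) :=
    ((pc 1).add ((pc s).mul ((pc X₀).mul pP))).of_le (fun ω => by positivity)
      (fun ω => by unfold fE; push_cast; rfl)
  have pD : EL Yf (fun ω => (((n + (s + s)) * fd n s m₀ (Yf ω) + 1 : ℕ) : ℝ)) :=
    (((pc (n + (s + s))).mul pd).add (pc 1)).of_le (fun ω => by positivity)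
      (fun ω => by push_cast; rfl)
  have pG : EL Yf (fun ω => ((fG n s m₀ (Yf ω) : ℕ) : ℝ)) :=
    (pD.npow _ pD).of_le (fun ω => by positivity) (fun ω => by unfold fG; push_cast; rfl)
  have pF : EL Yf (fun ω => ((fF n s m₀ X₀ (Yf ω) : ℕ) : ℝ)) :=
    (((pc 2).npow _ pG).mul (((pc 2).mul (((pc (m₀ ^ (n + (s + s)))).npow _ pE).mul
      (((pc n).mul ((pc (m₀ + 1)).npow _ pE)).add (pc 1)))).npow _ pG)).of_le
      (fun ω => by positivity) (fun ω => by unfold fF; push_cast; rfl)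
  obtain ⟨h', hh'⟩ := pG.two pF
  refine ⟨h', fun Y hY => ?_⟩
  have h1 := hh' (⟨Y, hY⟩ : Ω)
  exact ⟨by exact_mod_cast h1.1.2, by exact_mod_cast h1.2.2⟩

theorem exp_near {n s : ℕ} (l : Fin s → ℂ) (x : Fin n → Fin s → ℝ) (c : Fin n → ℂ) :
    ∃ A : ℝ, 1 ≤ A ∧ ∀ (ρ : Fin n → Fin s → ℝ) (ε : ℝ), 0 ≤ ε → A * ε ≤ 1 →
      (∀ j k, |x j k - ρ j k| ≤ ε) →
      ‖∑ j, c j * exp (∑ k, (ρ j k : ℂ) * l k) - ∑ j, c j * exp (∑ k, (x j k : ℂ) * l k)‖ ≤
        A * ε := by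
  obtain ⟨Λ, hΛ⟩ : ∃ Λ : ℝ, Λ = ∑ k, ‖l k‖ := ⟨_, rfl⟩
  have hΛ0 : 0 ≤ Λ := by rw [hΛ]; positivity
  obtain ⟨C, hC⟩ : ∃ C : ℝ, C = ∑ j, ‖c j‖ * (‖exp (∑ k, (x j k : ℂ) * l k)‖ * (2 * Λ)) := ⟨_, rfl⟩
  have hC0 : 0 ≤ C := by rw [hC]; positivity
  refine ⟨C + Λ + 1, by linarith, fun ρ ε hε hAε hρ => ?_⟩
  have hΛε : Λ * ε ≤ 1 := by nlinarith
  rw [← Finset.sum_sub_distrib]
  refine (norm_sum_le _ _).trans ?_
  have h1 : ∀ j, ‖c j * exp (∑ k, (ρ j k : ℂ) * l k) - c j * exp (∑ k, (x j k : ℂ) * l k)‖ ≤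
      ‖c j‖ * (‖exp (∑ k, (x j k : ℂ) * l k)‖ * (2 * Λ)) * ε := by
    intro j
    obtain ⟨w, hw⟩ : ∃ w : ℂ, w = ∑ k, (ρ j k : ℂ) * l k - ∑ k, (x j k : ℂ) * l k := ⟨_, rfl⟩
    have h2 : ‖w‖ ≤ Λ * ε := by
      rw [hw, ← Finset.sum_sub_distrib, hΛ, Finset.sum_mul]
      refine (norm_sum_le _ _).trans (Finset.sum_le_sum fun k _ => ?_)
      rw [← sub_mul, norm_mul, mul_comm]
      refine mul_le_mul_of_nonneg_left ?_ (norm_nonneg _)
      rw [← ofReal_sub, norm_real, Real.norm_eq_abs, abs_sub_comm]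
      exact hρ j k
    have h3 : exp (∑ k, (ρ j k : ℂ) * l k) = exp (∑ k, (x j k : ℂ) * l k) * exp w := by
      rw [← Complex.exp_add, hw]
      congr 1
      ring
    have h4 : c j * exp (∑ k, (ρ j k : ℂ) * l k) - c j * exp (∑ k, (x j k : ℂ) * l k) =
        c j * (exp (∑ k, (x j k : ℂ) * l k) * (exp w - 1)) := by
      rw [h3]
      ring
    rw [h4, norm_mul, norm_mul]
    have h5 := Complex.norm_exp_sub_one_le (h2.trans hΛε)
    have h6 : ‖exp w - 1‖ ≤ 2 * Λ * ε := by linarith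
    calc ‖c j‖ * (‖exp (∑ k, (x j k : ℂ) * l k)‖ * ‖exp w - 1‖) ≤
        ‖c j‖ * (‖exp (∑ k, (x j k : ℂ) * l k)‖ * (2 * Λ * ε)) := by gcongr
      _ = _ := by ring
  refine (Finset.sum_le_sum fun j _ => h1 j).trans ?_
  rw [← Finset.sum_mul, ← hC]
  nlinarith

theorem lio : S_LIO := by
  classical
  intro q hq s n l hl x hx c hc hsum
  -- the algebraic numbers
  choose mc hmc using fun j => exists_RB (hc j)
  choose ml hml using fun k => exists_RB (hl k)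
  have hl' : ∀ k, IsAlgebraic ℚ (exp (-(l k))) := fun k => by
    rw [Complex.exp_neg]
    exact (hl k).inv
  choose ml' hml' using fun k => exists_RB (hl' k)
  obtain ⟨m₀, hm₀⟩ : ∃ m₀, m₀ = ∑ j, mc j + ∑ k, ml k + ∑ k, ml' k := ⟨_, rfl⟩
  have hmc0 : ∀ j, mc j ≤ m₀ := fun j => by
    have := Finset.single_le_sum (f := mc) (fun _ _ => Nat.zero_le _) (mem_univ j)
    omega
  have hml0 : ∀ k, ml k ≤ m₀ := fun k => by
    have := Finset.single_le_sum (f := ml) (fun _ _ => Nat.zero_le _) (mem_univ k)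
    omega
  have hml0' : ∀ k, ml' k ≤ m₀ := fun k => by
    have := Finset.single_le_sum (f := ml') (fun _ _ => Nat.zero_le _) (mem_univ k)
    omega
  have hRc : ∀ j, RB m₀ m₀ (c j) := fun j => (hmc j).mono (hmc0 j) (hmc0 j)
  have hRl : ∀ k, RB m₀ m₀ (exp (l k)) := fun k => (hml k).mono (hml0 k) (hml0 k)
  have hRl' : ∀ k, RB m₀ m₀ (exp (-(l k))) := fun k => (hml' k).mono (hml0' k) (hml0' k)
  -- the approximations
  choose h hh using hx
  obtain ⟨H, hH⟩ : ∃ H, H = ∑ j, ∑ k, h j k := ⟨_, rfl⟩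
  have hle : ∀ (f : Fin n → Fin s → ℕ) (j : Fin n) (k : Fin s), f j k ≤ ∑ j, ∑ k, f j k := by
    intro f j k
    have h1 := Finset.single_le_sum (f := fun k => f j k) (fun _ _ => Nat.zero_le _) (mem_univ k)
    have h2 := Finset.single_le_sum (f := fun j => ∑ k, f j k) (fun _ _ => Nat.zero_le _)
      (mem_univ j)
    exact h1.trans h2
  obtain ⟨X₀, hX₀⟩ : ∃ X₀ : ℕ, X₀ = ∑ j, ∑ k, ⌈|x j k| + 1⌉₊ := ⟨_, rfl⟩
  obtain ⟨h', hh'⟩ := exists_tow n s m₀ X₀
  obtain ⟨κ₀, hκ₀⟩ := liou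
  obtain ⟨A, hA1, hA⟩ := exp_near l x c
  have hmain : ∀ m : ℕ, ∃ (u : Fin n → Fin s → ℤ) (v : ℕ), 0 < v ∧
      (∀ j k, |x j k - (u j k : ℝ) / v| ≤ 1 / ((m : ℝ) + 1)) ∧
      ∑ j, c j * exp (∑ k, (u j k : ℂ) / v * l k) = 0 := by
    intro m
    obtain ⟨κ', hκ'⟩ := inv_tow_small hq A (by linarith) (κ₀ + (h' + H) + (m + 1))
    choose k₀ hk₀ using fun j k => hh j k κ'
    obtain ⟨i, hi⟩ : ∃ i, i = ∑ j, ∑ k, k₀ j k := ⟨_, rfl⟩
    choose u v hv1 hv2 huv using fun j k => hk₀ j k i (by rw [hi]; exact hle k₀ j k)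
    obtain ⟨ε, hε⟩ : ∃ ε : ℝ, ε = ((tow κ' (q i) : ℕ) : ℝ)⁻¹ := ⟨_, rfl⟩
    have hq2 := hq i
    have htpos : ∀ a, 0 < ((tow a (q i) : ℕ) : ℝ) := fun a => by
      have := le_tow a (q i)
      exact_mod_cast (by omega : 0 < tow a (q i))
    have hε0 : 0 ≤ ε := by rw [hε]; exact (inv_pos.2 (htpos κ')).le
    have hAε := hκ' i
    rw [← hε] at hAε
    have hbig : ((tow (κ₀ + (h' + H) + (m + 1)) (q i) : ℕ) : ℝ)⁻¹ ≤ 1 / ((m : ℝ) + 1) := by
      rw [← one_div]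
      apply one_div_le_one_div_of_le (by positivity)
      have := le_tow (κ₀ + (h' + H) + (m + 1)) (q i)
      exact_mod_cast (by omega : m + 1 ≤ tow (κ₀ + (h' + H) + (m + 1)) (q i))
    have h1m : 1 / ((m : ℝ) + 1) ≤ 1 := by
      rw [div_le_one (by positivity)]
      have : (0 : ℝ) ≤ m := by positivity
      linarith
    have hAε1 : A * ε ≤ 1 := (hAε.trans hbig).trans h1m
    have hεA : ε ≤ A * ε := le_mul_of_one_le_left hε0 hA1
    obtain ⟨Y, hY⟩ : ∃ Y, Y = tow H (q i) := ⟨_, rfl⟩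
    have hY2 : 2 ≤ Y := by
      have := le_tow H (q i)
      omega
    obtain ⟨V, hV⟩ : ∃ V : ℕ, V = ∏ j, ∏ k, v j k := ⟨_, rfl⟩
    have hV0 : 0 < V := by
      rw [hV]
      exact Finset.prod_pos fun j _ => Finset.prod_pos fun k _ => hv1 j k
    have hVY : V ≤ Y ^ (s * n) := by
      have h1 : ∏ j : Fin n, ∏ k : Fin s, v j k ≤ ∏ j : Fin n, ∏ k : Fin s, Y :=
        Finset.prod_le_prod' fun j _ => Finset.prod_le_prod' fun k _ => by
          rw [hY]
          exact (hv2 j k).trans (tow_mono_left (by rw [hH]; exact hle h j k) _)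
      rw [hV]
      refine h1.trans (le_of_eq ?_)
      rw [Finset.prod_const, Finset.prod_const, Finset.card_univ, Finset.card_univ,
        Fintype.card_fin, Fintype.card_fin, ← pow_mul]
    have hvV : ∀ j k, v j k ∣ V := fun j k => by
      rw [hV]
      exact (Finset.dvd_prod_of_mem (fun k => v j k) (mem_univ k)).trans
        (Finset.dvd_prod_of_mem (fun j => ∏ k, v j k) (mem_univ j))
    obtain ⟨U, hU⟩ : ∃ U : Fin n → Fin s → ℤ, ∀ j k, U j k = u j k * ((V / v j k : ℕ) : ℤ) :=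
      ⟨_, fun _ _ => rfl⟩
    have hUV : ∀ j k, (U j k : ℝ) / V = u j k / v j k := by
      intro j k
      obtain ⟨w, hw⟩ := hvV j k
      have hv0 : (v j k : ℝ) ≠ 0 := by
        have := hv1 j k
        exact_mod_cast (by omega : v j k ≠ 0)
      have hw0 : (w : ℝ) ≠ 0 := by
        intro h0
        have h0' : w = 0 := by exact_mod_cast h0
        rw [h0', mul_zero] at hw
        omega
      rw [hU, hw, Nat.mul_div_cancel_left _ (hv1 j k)]
      push_cast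
      field_simp
    have happ : ∀ j k, |x j k - (U j k : ℝ) / V| ≤ ε := fun j k => by
      rw [hUV, hε]
      exact huv j k
    have hε1 : ε ≤ 1 := hεA.trans hAε1
    have hUabs : ∀ j k, (U j k).natAbs ≤ X₀ * Y ^ (s * n) := fun j k => by
      have h1 := num_le hε1 hV0 (happ j k)
      refine h1.trans (Nat.mul_le_mul ?_ hVY)
      rw [hX₀]
      exact hle (fun j k => ⌈|x j k| + 1⌉₊) j k
    refine ⟨U, V, hV0, fun j k => (happ j k).trans (hεA.trans (hAε.trans hbig)), ?_⟩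
    -- the relation
    obtain ⟨z, hz⟩ : ∃ z : ℂ, z = ∑ j, c j * exp (∑ k, (U j k : ℂ) / V * l k) := ⟨_, rfl⟩
    have hup : ‖z‖ ≤ A * ε := by
      have h1 := hA (fun j k => (U j k : ℝ) / V) ε hε0 hAε1 happ
      rw [hsum, sub_zero] at h1
      refine le_trans (le_of_eq ?_) h1
      rw [hz]
      push_cast
      rfl
    have hVC : (V : ℂ) ≠ 0 := by exact_mod_cast hV0.ne'
    have hRB : RB (fG n s m₀ Y) (fF n s m₀ X₀ Y) z := by
      have h1 := RB_sum (n := n) (s := s) m₀ (fd n s m₀ Y) c (fun k => exp (l k / V))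
        (fun k => exp (-(l k) / V)) ?_ ?_ ?_ (fun j k => (U j k).toNat)
        (fun j k => (-(U j k)).toNat) (fE n s X₀ Y) ?_ (fG n s m₀ Y) (fF n s m₀ X₀ Y) le_rfl le_rfl
      · have h2 : z = ∑ j, c j * ∏ k, (exp (l k / V) ^ (U j k).toNat *
            exp (-(l k) / V) ^ (-(U j k)).toNat) := by
          rw [hz]
          refine Finset.sum_congr rfl fun j _ => ?_
          rw [Complex.exp_sum]
          congr 1
          refine Finset.prod_congr rfl fun k _ => ?_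
          rw [← Complex.exp_nat_mul, ← Complex.exp_nat_mul, ← Complex.exp_add]
          congr 1
          have h3 : (U j k : ℂ) = ((U j k).toNat : ℂ) - ((-(U j k)).toNat : ℂ) := by
            have h4 : U j k = ((U j k).toNat : ℤ) - ((-(U j k)).toNat : ℤ) := by omega
            have h5 := congrArg (fun t : ℤ => (t : ℂ)) h4
            push_cast at h5
            exact h5
          rw [h3]
          ring
        rw [h2]
        exact h1
      · intro j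
        refine (hRc j).mono ?_ le_rfl
        unfold fd
        exact Nat.le_mul_of_pos_right _ (by positivity)
      · intro k
        refine (RB_root hV0 (hRl k) ?_).mono ?_ le_rfl
        · rw [← Complex.exp_nat_mul]
          congr 1
          field_simp
        · unfold fd
          exact Nat.mul_le_mul_left _ hVY
      · intro k
        refine (RB_root hV0 (hRl' k) ?_).mono ?_ le_rfl
        · rw [← Complex.exp_nat_mul]
          congr 1
          field_simp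
        · unfold fd
          exact Nat.mul_le_mul_left _ hVY
      · intro j
        unfold fE
        have h2 : ∑ k, ((U j k).toNat + (-(U j k)).toNat) ≤ ∑ k : Fin s, X₀ * Y ^ (s * n) :=
          Finset.sum_le_sum fun k _ => by
            have h3 := hUabs j k
            omega
        rw [Finset.sum_const, Finset.card_univ, Fintype.card_fin, smul_eq_mul] at h2
        omega
    by_contra hz0
    rw [← hz] at hz0
    obtain ⟨hG, hF⟩ := hh' Y hY2
    have hY2' : 2 ≤ tow h' Y := by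
      have := le_tow h' Y
      omega
    have hlow := hκ₀ (tow h' Y) hY2' z (hRB.mono hG hF) hz0
    rw [hY, tow_tow, tow_tow, add_assoc] at hlow
    have h3 : tow (κ₀ + (h' + H)) (q i) < tow (κ₀ + (h' + H) + (m + 1)) (q i) := by
      have h4 := tow_lt_succ (κ₀ + (h' + H)) (q i)
      exact h4.trans_le (tow_mono_left (by omega) _)
    have h5 : ((tow (κ₀ + (h' + H) + (m + 1)) (q i) : ℕ) : ℝ)⁻¹ <
        ((tow (κ₀ + (h' + H)) (q i) : ℕ) : ℝ)⁻¹ := by
      apply inv_strictAnti₀ (htpos _)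
      exact_mod_cast h3
    linarith
  choose u v hv huv hz using hmain
  refine ⟨u, v, hv, fun j k => ?_, hz⟩
  rw [tendsto_iff_norm_sub_tendsto_zero]
  refine squeeze_zero (fun m => norm_nonneg _) (fun m => ?_) tendsto_one_div_add_atTop_nhds_zero_nat
  rw [Real.norm_eq_abs, abs_sub_comm]
  exact huv m j k

end Pool.Agent.P8H4.KM
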