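import Pool.Agent.P8H10.KM.StmI

/-!
Package IRR of the project KM.
-/

set_option autoImplicit false

open Finset Pool.Agent.R347.LW

namespace Pool.Agent.P8H4.KM

open Pool.Agent.P8H10.KM

/-- the tails -/
noncomputable def tl {n : ℕ} (S : Fin n → Set ℕ) (m : Fin n → ℤ) (k : ℕ) : ℝ :=
  ∑ j, (m j : ℝ) * ∑' i, trT (S j) (i + k)

theorem eT_add_lt (k : ℕ) : eT k + (k + 2) ≤ eT (k + 1) := by
  rw [eT_succ]
  exact le_tow (k + 2) (eT k)

theorem abs_tl_le {n : ℕ} (S : Fin n → Set ℕ) (m : Fin n → ℤ) (k : ℕ) :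
    |tl S m k| ≤ (∑ j, |(m j : ℝ)|) * (2 * (1 / 2 : ℝ) ^ eT k) := by
  unfold tl
  refine (Finset.abs_sum_le_sum_abs _ _).trans ?_
  rw [Finset.sum_mul]
  refine Finset.sum_le_sum fun j _ => ?_
  rw [abs_mul, abs_of_nonneg (tailT_nonneg (S j) k)]
  exact mul_le_mul_of_nonneg_left (tailT_le (S j) k) (abs_nonneg _)

theorem tl_succ {n : ℕ} (S : Fin n → Set ℕ) (m : Fin n → ℤ) (k : ℕ) :
    tl S m k = ∑ j, (m j : ℝ) * trT (S j) k + tl S m (k + 1) := by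
  unfold tl
  rw [← Finset.sum_add_distrib]
  refine Finset.sum_congr rfl fun j _ => ?_
  rw [← mul_add, (trT_summable' (S j) k).tsum_eq_zero_add, zero_add]
  congr 2
  refine tsum_congr fun i => ?_
  congr 1
  ring

theorem irr : S_IRR := by
  classical
  intro n S hinf hdisj m hm
  rintro ⟨y, hy⟩
  obtain ⟨j₀, hj₀⟩ : ∃ j, m j ≠ 0 := by
    by_contra h
    push Not at h
    exact hm (funext h)
  obtain ⟨C, hC⟩ : ∃ C : ℝ, C = ∑ j, |(m j : ℝ)| := ⟨_, rfl⟩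
  have hC0 : 0 ≤ C := by rw [hC]; positivity
  obtain ⟨D, hD⟩ : ∃ D : ℕ, D = y.den := ⟨_, rfl⟩
  have hD0 : 0 < D := by rw [hD]; exact y.den_pos
  have hD1 : (1 : ℝ) ≤ D := by exact_mod_cast hD0
  obtain ⟨K, hK⟩ := exists_nat_gt (2 * C * D)
  obtain ⟨k, hkS, hk⟩ := (hinf j₀).exists_gt (K + 1)
  obtain ⟨k', rfl⟩ : ∃ k', k = k' + 1 := ⟨k - 1, by omega⟩
  have hkC : 2 * C * D < (k' : ℝ) := hK.trans (by exact_mod_cast (by omega : K < k'))
  have hkC1 : 2 * C < (k' : ℝ) := by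
    have : 2 * C ≤ 2 * C * D := le_mul_of_one_le_right (by linarith) hD1
    linarith
  -- the first term of the tail
  have h1 : ∑ j, (m j : ℝ) * trT (S j) (k' + 1) = m j₀ * (1 / 2 : ℝ) ^ eT (k' + 1) := by
    rw [Finset.sum_eq_single j₀]
    · rw [trT_of_mem hkS]
    · intro j _ hj
      rw [trT_of_notMem, mul_zero]
      intro h
      exact Set.disjoint_left.1 (hdisj j j₀ hj) h hkS
    · intro h
      exact absurd (mem_univ _) h
  have hp1 : (0 : ℝ) < (1 / 2) ^ eT (k' + 1) := by positivity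
  have hlt : ∀ i : ℕ, (i : ℝ) < 2 ^ (i + 2) := fun i => by
    have h2 : i < 2 ^ i := Nat.lt_two_pow_self
    have h3 : 2 ^ i ≤ 2 ^ (i + 2) := Nat.pow_le_pow_right (by norm_num) (by omega)
    exact_mod_cast h2.trans_le h3
  have hstep : ∀ i : ℕ, (2 : ℝ) ^ (i + 2) * (1 / 2) ^ eT (i + 1) ≤ (1 / 2) ^ eT i := fun i => by
    have h2 : (1 / 2 : ℝ) ^ eT (i + 1) ≤ (1 / 2) ^ (eT i + (i + 2)) :=
      pow_le_pow_of_le_one (by norm_num) (by norm_num) (eT_add_lt i)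
    have h3 : (2 : ℝ) ^ (i + 2) * (1 / 2) ^ (eT i + (i + 2)) = (1 / 2) ^ eT i := by
      rw [pow_add (1 / 2 : ℝ), mul_comm ((1 / 2 : ℝ) ^ eT i), ← mul_assoc, ← mul_pow]
      norm_num
    rw [← h3]
    gcongr
  -- the tail is not zero
  have hne : tl S m (k' + 1) ≠ 0 := by
    intro h0
    rw [tl_succ, h1] at h0
    have h2 := abs_tl_le S m (k' + 1 + 1)
    rw [← hC] at h2
    have h3 : |tl S m (k' + 1 + 1)| = |(m j₀ : ℝ)| * (1 / 2 : ℝ) ^ eT (k' + 1) := by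
      have h4 : tl S m (k' + 1 + 1) = -(m j₀ * (1 / 2 : ℝ) ^ eT (k' + 1)) := by linarith
      rw [h4, abs_neg, abs_mul, abs_of_pos hp1]
    have h4 : (1 : ℝ) ≤ |(m j₀ : ℝ)| := by
      exact_mod_cast Int.one_le_abs hj₀
    have h5 : (1 / 2 : ℝ) ^ eT (k' + 1) ≤ C * (2 * (1 / 2 : ℝ) ^ eT (k' + 1 + 1)) := by
      calc (1 / 2 : ℝ) ^ eT (k' + 1) ≤ |(m j₀ : ℝ)| * (1 / 2 : ℝ) ^ eT (k' + 1) :=
            le_mul_of_one_le_left hp1.le h4
        _ ≤ _ := by rw [← h3]; exact h2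
    have h6 := hstep (k' + 1)
    have h7 : 2 * C < 2 ^ (k' + 1 + 2) := by
      have := hlt (k' + 1)
      push_cast at this
      linarith
    have hp2 : (0 : ℝ) < (1 / 2) ^ eT (k' + 1 + 1) := by positivity
    have h8 : 2 * C * (1 / 2 : ℝ) ^ eT (k' + 1 + 1) <
        2 ^ (k' + 1 + 2) * (1 / 2 : ℝ) ^ eT (k' + 1 + 1) := mul_lt_mul_of_pos_right h7 hp2
    linarith
  -- the tail is small
  have hsmall : |(D : ℝ) * 2 ^ eT k' * tl S m (k' + 1)| < 1 := by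
    have h2 := abs_tl_le S m (k' + 1)
    rw [← hC] at h2
    rw [abs_mul, abs_of_nonneg (by positivity : (0 : ℝ) ≤ (D : ℝ) * 2 ^ eT k')]
    have h3 := hstep k'
    have h4 : (2 : ℝ) ^ eT k' * (1 / 2) ^ eT k' = 1 := by
      rw [← mul_pow]
      norm_num
    have h5 : (2 : ℝ) ^ eT k' * (2 ^ (k' + 2) * (1 / 2) ^ eT (k' + 1)) ≤ 1 :=
      (mul_le_mul_of_nonneg_left h3 (by positivity)).trans h4.le
    have h6 : 2 * C * D < 2 ^ (k' + 2) := hkC.trans (hlt k')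
    have hp3 : (0 : ℝ) < 2 ^ eT k' * (1 / 2) ^ eT (k' + 1) := by positivity
    calc (D : ℝ) * 2 ^ eT k' * |tl S m (k' + 1)| ≤
        (D : ℝ) * 2 ^ eT k' * (C * (2 * (1 / 2 : ℝ) ^ eT (k' + 1))) := by gcongr
      _ = 2 * C * D * (2 ^ eT k' * (1 / 2) ^ eT (k' + 1)) := by ring
      _ < 2 ^ (k' + 2) * (2 ^ eT k' * (1 / 2) ^ eT (k' + 1)) := mul_lt_mul_of_pos_right h6 hp3
      _ = 2 ^ eT k' * (2 ^ (k' + 2) * (1 / 2) ^ eT (k' + 1)) := by ring
      _ ≤ 1 := h5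
  -- integrality
  obtain ⟨z, hz⟩ : ∃ z : ℤ, (2 : ℝ) ^ eT k' * ∑ j, (m j : ℝ) * ∑ i ∈ range (k' + 1), trT (S j) i = z := by
    refine ⟨∑ j, m j * ∑ i ∈ range (k' + 1), (if i ∈ S j then 2 ^ (eT k' - eT i) else 0), ?_⟩
    push_cast
    rw [Finset.mul_sum]
    refine Finset.sum_congr rfl fun j _ => ?_
    rw [mul_left_comm, Finset.mul_sum]
    congr 1
    refine Finset.sum_congr rfl fun i hi => ?_
    have hi' : eT i ≤ eT k' := by
      have h2 : i ≤ k' := by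
        rw [mem_range] at hi
        omega
      obtain ⟨l, rfl⟩ := Nat.exists_eq_add_of_le h2
      exact (Nat.le_add_right _ _).trans (eT_add i l)
    by_cases h : i ∈ S j
    · rw [trT_of_mem h, if_pos h]
      obtain ⟨l, hl⟩ := Nat.exists_eq_add_of_le hi'
      rw [hl, Nat.add_sub_cancel_left, pow_add, mul_right_comm, ← mul_pow]
      norm_num
    · rw [trT_of_notMem h, if_neg h, mul_zero]
  have hsplit : ∑ j, (m j : ℝ) * xiT (S j) =
      ∑ j, (m j : ℝ) * ∑ i ∈ range (k' + 1), trT (S j) i + tl S m (k' + 1) := by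
    unfold tl
    rw [← Finset.sum_add_distrib]
    refine Finset.sum_congr rfl fun j _ => ?_
    rw [← mul_add, ← xiT_split]
  have hnum : (D : ℝ) * (y : ℝ) = y.num := by
    rw [hD]
    exact_mod_cast Rat.den_mul_eq_num y
  have hint : (D : ℝ) * 2 ^ eT k' * tl S m (k' + 1) = ((2 ^ eT k' * y.num - D * z : ℤ) : ℝ) := by
    have h2 : tl S m (k' + 1) =
        (y : ℝ) - ∑ j, (m j : ℝ) * ∑ i ∈ range (k' + 1), trT (S j) i := by
      rw [hy, hsplit]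
      ring
    rw [h2]
    push_cast
    rw [← hnum, ← hz]
    ring
  rw [hint] at hsmall
  have h9 : |2 ^ eT k' * y.num - D * z| < 1 := by exact_mod_cast hsmall
  have h10 : 2 ^ eT k' * y.num - D * z = 0 := Int.abs_lt_one_iff.1 h9
  rw [h10, Int.cast_zero] at hint
  have h11 : (D : ℝ) * 2 ^ eT k' ≠ 0 := by positivity
  exact hne ((mul_eq_zero.1 hint).resolve_left h11)

end Pool.Agent.P8H4.KM
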