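import Pool.Agent.P8H10.KM.StmL2
import Pool.Agent.P8H4.KM.Lio

/-!
Package LIO2 of the project KM: Liouville inequality with approximable coefficients.
-/

set_option autoImplicit false

open Finset Filter Topology Complex Polynomial Pool.Agent.R347.LW

namespace Pool.Agent.P8H4.KM

open Pool.Agent.P8H10.KM

/-- common denominators -/
theorem common {q : ℕ → ℕ} (hq : ∀ i, 2 ≤ q i) {ι : Type} [Fintype ι] (x : ι → ℝ)
    (hx : ∀ a, RAppr q (x a)) : ∃ H X₀ P : ℕ, ∀ κ : ℕ, ∃ i : ℕ, ∃ (u : ι → ℤ) (V : ℕ),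
      0 < V ∧ V ≤ tow H (q i) ^ P ∧ (∀ a, |x a - u a / V| ≤ ((tow κ (q i) : ℕ) : ℝ)⁻¹) ∧
      ∀ a, (u a).natAbs ≤ X₀ * tow H (q i) ^ P := by
  classical
  choose h hh using hx
  obtain ⟨H, hH⟩ : ∃ H, H = ∑ a, h a := ⟨_, rfl⟩
  have hle : ∀ (f : ι → ℕ) (a : ι), f a ≤ ∑ a, f a := fun f a =>
    Finset.single_le_sum (f := f) (fun _ _ => Nat.zero_le _) (mem_univ a)
  obtain ⟨X₀, hX₀⟩ : ∃ X₀ : ℕ, X₀ = ∑ a, ⌈|x a| + 1⌉₊ := ⟨_, rfl⟩
  refine ⟨H, X₀, Fintype.card ι, fun κ => ?_⟩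
  choose k₀ hk₀ using fun a => hh a κ
  obtain ⟨i, hi⟩ : ∃ i, i = ∑ a, k₀ a := ⟨_, rfl⟩
  choose u v hv1 hv2 huv using fun a => hk₀ a i (by rw [hi]; exact hle k₀ a)
  have hq2 := hq i
  obtain ⟨V, hV⟩ : ∃ V : ℕ, V = ∏ a, v a := ⟨_, rfl⟩
  have hV0 : 0 < V := by
    rw [hV]
    exact Finset.prod_pos fun a _ => hv1 a
  have hVY : V ≤ tow H (q i) ^ Fintype.card ι := by
    have h1 : ∏ a, v a ≤ ∏ a : ι, tow H (q i) :=
      Finset.prod_le_prod' fun a _ => (hv2 a).trans (tow_mono_left (by rw [hH]; exact hle h a) _)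
    rw [hV]
    refine h1.trans (le_of_eq ?_)
    rw [Finset.prod_const, Finset.card_univ]
  have hvV : ∀ a, v a ∣ V := fun a => by
    rw [hV]
    exact Finset.dvd_prod_of_mem v (mem_univ a)
  have hUV : ∀ a, ((u a * ((V / v a : ℕ) : ℤ) : ℤ) : ℝ) / V = u a / v a := by
    intro a
    obtain ⟨w, hw⟩ := hvV a
    have hv0 : (v a : ℝ) ≠ 0 := by
      have := hv1 a
      exact_mod_cast (by omega : v a ≠ 0)
    have hw0 : (w : ℝ) ≠ 0 := by
      intro h0
      have h0' : w = 0 := by exact_mod_cast h0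
      rw [h0', mul_zero] at hw
      omega
    rw [hw, Nat.mul_div_cancel_left _ (hv1 a)]
    push_cast
    field_simp
  have happ : ∀ a, |x a - ((u a * ((V / v a : ℕ) : ℤ) : ℤ) : ℝ) / V| ≤
      ((tow κ (q i) : ℕ) : ℝ)⁻¹ := fun a => by
    rw [hUV]
    exact huv a
  refine ⟨i, fun a => u a * ((V / v a : ℕ) : ℤ), V, hV0, hVY, happ, fun a => ?_⟩
  have hε1 : ((tow κ (q i) : ℕ) : ℝ)⁻¹ ≤ 1 := by
    apply inv_le_one_of_one_le₀
    have := le_tow κ (q i)
    exact_mod_cast (by omega : 1 ≤ tow κ (q i))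
  refine (num_le hε1 hV0 (happ a)).trans (Nat.mul_le_mul ?_ hVY)
  rw [hX₀]
  exact hle (fun a => ⌈|x a| + 1⌉₊) a

/-- the bounds -/
def gd (m₀ P Y : ℕ) : ℕ := (m₀ + 1) * Y ^ P
/-- the bounds -/
def gm (m₀ X₀ P Y : ℕ) : ℕ := m₀ + (X₀ + 1) * Y ^ P
/-- the bounds -/
def gE (s X₀ P Y : ℕ) : ℕ := 1 + s * (X₀ * Y ^ P)
/-- the bounds -/
def gG (n s m₀ P Y : ℕ) : ℕ :=
  ((n + (s + s)) * gd m₀ P Y + 1) ^ ((n + (s + s)) * gd m₀ P Y + 1)
/-- the bounds -/
def gF (n s m₀ X₀ P Y : ℕ) : ℕ :=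
  2 ^ gG n s m₀ P Y * (2 * ((gm m₀ X₀ P Y ^ (n + (s + s))) ^ gE s X₀ P Y *
    (n * (gm m₀ X₀ P Y + 1) ^ gE s X₀ P Y + 1))) ^ gG n s m₀ P Y

theorem exists_tow2 (n s m₀ X₀ P : ℕ) : ∃ h' : ℕ, ∀ Y : ℕ, 2 ≤ Y →
    gG n s m₀ P Y ≤ tow h' Y ∧ gF n s m₀ X₀ P Y ≤ tow h' Y := by
  let Ω : Type := {Y : ℕ // 2 ≤ Y}
  let Yf : Ω → ℕ := fun ω => ω.1
  have pc : ∀ a : ℕ, EL Yf (fun _ => ((a : ℕ) : ℝ)) := fun a => EL.const (a : ℝ) (by positivity)
  have pY : EL Yf (fun ω => (Yf ω : ℝ)) := EL.base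
  have pP : EL Yf (fun ω => ((Yf ω ^ P : ℕ) : ℝ)) :=
    (pY.npow (fun _ => P) (pc P)).of_le (fun ω => by positivity)
      (fun ω => by push_cast; rfl)
  have pd : EL Yf (fun ω => ((gd m₀ P (Yf ω) : ℕ) : ℝ)) :=
    ((pc (m₀ + 1)).mul pP).of_le (fun ω => by positivity) (fun ω => by unfold gd; push_cast; rfl)
  have pm : EL Yf (fun ω => ((gm m₀ X₀ P (Yf ω) : ℕ) : ℝ)) :=
    ((pc m₀).add ((pc (X₀ + 1)).mul pP)).of_le (fun ω => by positivity)
      (fun ω => by unfold gm; push_cast; rfl)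
  have pm1 : EL Yf (fun ω => ((gm m₀ X₀ P (Yf ω) + 1 : ℕ) : ℝ)) :=
    (pm.add (pc 1)).of_le (fun ω => by positivity) (fun ω => by push_cast; rfl)
  have pE : EL Yf (fun ω => ((gE s X₀ P (Yf ω) : ℕ) : ℝ)) :=
    ((pc 1).add ((pc s).mul ((pc X₀).mul pP))).of_le (fun ω => by positivity)
      (fun ω => by unfold gE; push_cast; rfl)
  have pD : EL Yf (fun ω => (((n + (s + s)) * gd m₀ P (Yf ω) + 1 : ℕ) : ℝ)) :=
    (((pc (n + (s + s))).mul pd).add (pc 1)).of_le (fun ω => by positivity)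
      (fun ω => by push_cast; rfl)
  have pG : EL Yf (fun ω => ((gG n s m₀ P (Yf ω) : ℕ) : ℝ)) :=
    (pD.npow _ pD).of_le (fun ω => by positivity) (fun ω => by unfold gG; push_cast; rfl)
  have pF : EL Yf (fun ω => ((gF n s m₀ X₀ P (Yf ω) : ℕ) : ℝ)) :=
    (((pc 2).npow _ pG).mul (((pc 2).mul (((pm.npow (fun _ => n + (s + s))
      (pc (n + (s + s)))).npow _ pE).mul
      (((pc n).mul (pm1.npow _ pE)).add (pc 1)))).npow _ pG)).of_le
      (fun ω => by positivity) (fun ω => by unfold gF; push_cast; rfl)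
  obtain ⟨h', hh'⟩ := pG.two pF
  refine ⟨h', fun Y hY => ?_⟩
  have h1 := hh' (⟨Y, hY⟩ : Ω)
  exact ⟨by exact_mod_cast h1.1.2, by exact_mod_cast h1.2.2⟩

theorem exp_near2 {n s : ℕ} (l : Fin s → ℂ) (x : Fin n → Fin s → ℝ) (y : Fin n → ℝ) :
    ∃ A : ℝ, 1 ≤ A ∧ ∀ (ρ : Fin n → Fin s → ℝ) (η : Fin n → ℝ) (ε : ℝ), 0 ≤ ε → A * ε ≤ 1 →
      (∀ j k, |x j k - ρ j k| ≤ ε) → (∀ j, |y j - η j| ≤ ε) →
      ‖∑ j, (η j : ℂ) * exp (∑ k, (ρ j k : ℂ) * l k) -
        ∑ j, (y j : ℂ) * exp (∑ k, (x j k : ℂ) * l k)‖ ≤ A * ε := by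
  obtain ⟨A, hA1, hA⟩ := exp_near l x (fun j => (y j : ℂ))
  obtain ⟨B, hB⟩ : ∃ B : ℝ, B = ∑ j : Fin n, Real.exp (∑ k, (|x j k| + 1) * ‖l k‖) := ⟨_, rfl⟩
  have hB0 : 0 ≤ B := by rw [hB]; positivity
  refine ⟨A + B, by linarith, fun ρ η ε hε hABε hρ hη => ?_⟩
  have hBε : 0 ≤ B * ε := by positivity
  have hAε : A * ε ≤ 1 := by nlinarith
  have hε1 : ε ≤ 1 := by nlinarith
  have h1 := hA ρ ε hε hAε hρ
  have h2 : ‖∑ j, (η j : ℂ) * exp (∑ k, (ρ j k : ℂ) * l k) -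
      ∑ j, (y j : ℂ) * exp (∑ k, (ρ j k : ℂ) * l k)‖ ≤ B * ε := by
    rw [← Finset.sum_sub_distrib, hB, Finset.sum_mul]
    refine (norm_sum_le _ _).trans (Finset.sum_le_sum fun j _ => ?_)
    rw [← sub_mul, norm_mul, ← ofReal_sub, norm_real, Real.norm_eq_abs, abs_sub_comm, mul_comm]
    refine mul_le_mul ?_ (hη j) (abs_nonneg _) (Real.exp_pos _).le
    refine (norm_exp_le_exp_norm _).trans (Real.exp_le_exp.2 ?_)
    refine (norm_sum_le _ _).trans (Finset.sum_le_sum fun k _ => ?_)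
    rw [norm_mul, norm_real, Real.norm_eq_abs]
    refine mul_le_mul_of_nonneg_right ?_ (norm_nonneg _)
    have h3 : ρ j k = x j k - (x j k - ρ j k) := by ring
    rw [h3]
    exact (abs_sub _ _).trans (by linarith [hρ j k])
  have h3 : ∑ j, (η j : ℂ) * exp (∑ k, (ρ j k : ℂ) * l k) -
        ∑ j, (y j : ℂ) * exp (∑ k, (x j k : ℂ) * l k) =
      (∑ j, (η j : ℂ) * exp (∑ k, (ρ j k : ℂ) * l k) -
      ∑ j, (y j : ℂ) * exp (∑ k, (ρ j k : ℂ) * l k)) +
      (∑ j, (y j : ℂ) * exp (∑ k, (ρ j k : ℂ) * l k) -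
        ∑ j, (y j : ℂ) * exp (∑ k, (x j k : ℂ) * l k)) := by ring
  rw [h3]
  refine (norm_add_le _ _).trans ?_
  linarith

theorem RB_rat (w : ℤ) {V N : ℕ} (hV : 0 < V) (hw : w.natAbs ≤ N) (hVN : V ≤ N) {d : ℕ}
    (hd : 1 ≤ d) : RB d N ((w : ℂ) / V) := by
  have hVC : (V : ℂ) ≠ 0 := by exact_mod_cast hV.ne'
  refine ⟨C (V : ℤ) * X - C w, ?_, ?_, fun n => ?_, ?_⟩
  · intro h0
    have h1 := congrArg (fun P : ℤ[X] => P.coeff 1) h0
    beta_reduce at h1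
    rw [coeff_sub, coeff_C_mul, coeff_X_one, mul_one, coeff_C_of_ne_zero one_ne_zero, sub_zero,
      coeff_zero] at h1
    omega
  · refine (natDegree_sub_le _ _).trans ?_
    rw [natDegree_C]
    have h1 : (C (V : ℤ) * X).natDegree ≤ 1 := (natDegree_C_mul_le _ _).trans natDegree_X_le
    omega
  · rw [coeff_sub, coeff_C_mul, coeff_X, coeff_C]
    split_ifs with h1 h2 h2
    · omega
    · rw [mul_one, sub_zero]
      have : |(V : ℤ)| = V := abs_of_nonneg (by positivity)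
      rw [this]
      exact_mod_cast hVN
    · rw [mul_zero, zero_sub, abs_neg, ← Int.natCast_natAbs]
      exact_mod_cast hw
    · simp
  · rw [map_sub, map_mul, aeval_C, aeval_C, aeval_X, eq_intCast, eq_intCast]
    push_cast
    rw [mul_div_cancel₀ _ hVC, sub_self]

theorem lio2 : S_LIO2 := by
  classical
  intro q hq s n l hl x hx y hy hsum
  -- the algebraic numbers
  choose ml hml using fun k => exists_RB (hl k)
  have hl' : ∀ k, IsAlgebraic ℚ (exp (-(l k))) := fun k => by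
    rw [Complex.exp_neg]
    exact (hl k).inv
  choose ml' hml' using fun k => exists_RB (hl' k)
  obtain ⟨m₀, hm₀⟩ : ∃ m₀, m₀ = ∑ k, ml k + ∑ k, ml' k := ⟨_, rfl⟩
  have hml0 : ∀ k, ml k ≤ m₀ := fun k => by
    have := Finset.single_le_sum (f := ml) (fun _ _ => Nat.zero_le _) (mem_univ k)
    omega
  have hml0' : ∀ k, ml' k ≤ m₀ := fun k => by
    have := Finset.single_le_sum (f := ml') (fun _ _ => Nat.zero_le _) (mem_univ k)
    omega
  have hRl : ∀ k, RB m₀ m₀ (exp (l k)) := fun k => (hml k).mono (hml0 k) (hml0 k)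
  have hRl' : ∀ k, RB m₀ m₀ (exp (-(l k))) := fun k => (hml' k).mono (hml0' k) (hml0' k)
  -- the approximations
  obtain ⟨H, X₀, P, hcom⟩ := common hq (ι := Fin n × Option (Fin s))
    (fun a => Option.elim a.2 (y a.1) (fun k => x a.1 k)) (by
      rintro ⟨j, _ | k⟩
      · exact hy j
      · exact hx j k)
  obtain ⟨h', hh'⟩ := exists_tow2 n s m₀ X₀ P
  obtain ⟨κ₀, hκ₀⟩ := liou
  obtain ⟨A, hA1, hA⟩ := exp_near2 l x y
  have hmain : ∀ m : ℕ, ∃ (u : Fin n → Fin s → ℤ) (w : Fin n → ℤ) (v : ℕ), 0 < v ∧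
      (∀ j k, |x j k - (u j k : ℝ) / v| ≤ 1 / ((m : ℝ) + 1)) ∧
      (∀ j, |y j - (w j : ℝ) / v| ≤ 1 / ((m : ℝ) + 1)) ∧
      ∑ j, (w j : ℂ) / v * exp (∑ k, (u j k : ℂ) / v * l k) = 0 := by
    intro m
    obtain ⟨κ', hκ'⟩ := inv_tow_small hq A (by linarith) (κ₀ + (h' + H) + (m + 1))
    obtain ⟨i, u', V, hV0, hVY, happ', hUabs'⟩ := hcom κ'
    obtain ⟨U, hU⟩ : ∃ U : Fin n → Fin s → ℤ, ∀ j k, U j k = u' (j, some k) := ⟨_, fun _ _ => rfl⟩
    obtain ⟨w, hw⟩ : ∃ w : Fin n → ℤ, ∀ j, w j = u' (j, none) := ⟨_, fun _ => rfl⟩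
    obtain ⟨ε, hε⟩ : ∃ ε : ℝ, ε = ((tow κ' (q i) : ℕ) : ℝ)⁻¹ := ⟨_, rfl⟩
    have hq2 := hq i
    have htpos : ∀ a, 0 < ((tow a (q i) : ℕ) : ℝ) := fun a => by
      have := le_tow a (q i)
      exact_mod_cast (by omega : 0 < tow a (q i))
    have hε0 : 0 ≤ ε := by rw [hε]; exact (inv_pos.2 (htpos κ')).le
    have hAε := hκ' i
    rw [← hε] at hAε
    have hbig : ((tow (κ₀ + (h' + H) + (m + 1)) (q i) : ℕ) : ℝ)⁻¹ ≤ 1 / ((m : ℝ) + 1) := by
      rw [← one_div]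
      apply one_div_le_one_div_of_le (by positivity)
      have := le_tow (κ₀ + (h' + H) + (m + 1)) (q i)
      exact_mod_cast (by omega : m + 1 ≤ tow (κ₀ + (h' + H) + (m + 1)) (q i))
    have h1m : 1 / ((m : ℝ) + 1) ≤ 1 := by
      rw [div_le_one (by positivity)]
      have : (0 : ℝ) ≤ m := by positivity
      linarith
    have hAε1 : A * ε ≤ 1 := (hAε.trans hbig).trans h1m
    have hεA : ε ≤ A * ε := le_mul_of_one_le_left hε0 hA1
    obtain ⟨Y, hY⟩ : ∃ Y, Y = tow H (q i) := ⟨_, rfl⟩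
    rw [← hY] at hVY hUabs'
    have hY2 : 2 ≤ Y := by
      have := le_tow H (q i)
      omega
    have happ : ∀ j k, |x j k - (U j k : ℝ) / V| ≤ ε := fun j k => by
      rw [hU, hε]
      exact happ' (j, some k)
    have happw : ∀ j, |y j - (w j : ℝ) / V| ≤ ε := fun j => by
      rw [hw, hε]
      exact happ' (j, none)
    have hUabs : ∀ j k, (U j k).natAbs ≤ X₀ * Y ^ P := fun j k => by
      rw [hU]
      exact hUabs' (j, some k)
    have hwabs : ∀ j, (w j).natAbs ≤ X₀ * Y ^ P := fun j => by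
      rw [hw]
      exact hUabs' (j, none)
    have hεm : ε ≤ 1 / ((m : ℝ) + 1) := hεA.trans (hAε.trans hbig)
    refine ⟨U, w, V, hV0, fun j k => (happ j k).trans hεm, fun j => (happw j).trans hεm, ?_⟩
    -- the relation
    obtain ⟨z, hz⟩ : ∃ z : ℂ, z = ∑ j, (w j : ℂ) / V * exp (∑ k, (U j k : ℂ) / V * l k) := ⟨_, rfl⟩
    have hup : ‖z‖ ≤ A * ε := by
      have h1 := hA (fun j k => (U j k : ℝ) / V) (fun j => (w j : ℝ) / V) ε hε0 hAε1 happ happw
      rw [hsum, sub_zero] at h1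
      refine le_trans (le_of_eq ?_) h1
      rw [hz]
      push_cast
      rfl
    have hVC : (V : ℂ) ≠ 0 := by exact_mod_cast hV0.ne'
    have hYP : 1 ≤ Y ^ P := Nat.one_le_pow _ _ (by omega)
    have hm0V : m₀ * V ≤ gd m₀ P Y := by
      unfold gd
      exact Nat.mul_le_mul (by omega) hVY
    have hm0m : m₀ ≤ gm m₀ X₀ P Y := by
      unfold gm
      omega
    have hRB : RB (gG n s m₀ P Y) (gF n s m₀ X₀ P Y) z := by
      have h1 := RB_sum (n := n) (s := s) (gm m₀ X₀ P Y) (gd m₀ P Y) (fun j => (w j : ℂ) / V)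
        (fun k => exp (l k / V)) (fun k => exp (-(l k) / V)) ?_ ?_ ?_ (fun j k => (U j k).toNat)
        (fun j k => (-(U j k)).toNat) (gE s X₀ P Y) ?_ (gG n s m₀ P Y) (gF n s m₀ X₀ P Y) le_rfl
        le_rfl
      · have h2 : z = ∑ j, (w j : ℂ) / V * ∏ k, (exp (l k / V) ^ (U j k).toNat *
            exp (-(l k) / V) ^ (-(U j k)).toNat) := by
          rw [hz]
          refine Finset.sum_congr rfl fun j _ => ?_
          rw [Complex.exp_sum]
          congr 1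
          refine Finset.prod_congr rfl fun k _ => ?_
          rw [← Complex.exp_nat_mul, ← Complex.exp_nat_mul, ← Complex.exp_add]
          congr 1
          have h3 : (U j k : ℂ) = ((U j k).toNat : ℂ) - ((-(U j k)).toNat : ℂ) := by
            have h4 : U j k = ((U j k).toNat : ℤ) - ((-(U j k)).toNat : ℤ) := by omega
            have h5 := congrArg (fun t : ℤ => (t : ℂ)) h4
            push_cast at h5
            exact h5
          rw [h3]
          ring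
        rw [h2]
        exact h1
      · intro j
        have h2 : X₀ * Y ^ P + Y ^ P ≤ gm m₀ X₀ P Y := by
          unfold gm
          rw [Nat.succ_mul]
          omega
        refine RB_rat (w j) hV0 ((hwabs j).trans (by omega)) (hVY.trans (by omega)) ?_
        unfold gd
        exact Nat.one_le_iff_ne_zero.2 (Nat.mul_ne_zero (by omega) (by omega))
      · intro k
        refine (RB_root hV0 (hRl k) ?_).mono hm0V hm0m
        rw [← Complex.exp_nat_mul]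
        congr 1
        field_simp
      · intro k
        refine (RB_root hV0 (hRl' k) ?_).mono hm0V hm0m
        rw [← Complex.exp_nat_mul]
        congr 1
        field_simp
      · intro j
        unfold gE
        have h2 : ∑ k, ((U j k).toNat + (-(U j k)).toNat) ≤ ∑ k : Fin s, X₀ * Y ^ P :=
          Finset.sum_le_sum fun k _ => by
            have h3 := hUabs j k
            omega
        rw [Finset.sum_const, Finset.card_univ, Fintype.card_fin, smul_eq_mul] at h2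
        omega
    by_contra hz0
    rw [← hz] at hz0
    obtain ⟨hG, hF⟩ := hh' Y hY2
    have hY2' : 2 ≤ tow h' Y := by
      have := le_tow h' Y
      omega
    have hlow := hκ₀ (tow h' Y) hY2' z (hRB.mono hG hF) hz0
    rw [hY, tow_tow, tow_tow, add_assoc] at hlow
    have h3 : tow (κ₀ + (h' + H)) (q i) < tow (κ₀ + (h' + H) + (m + 1)) (q i) := by
      have h4 := tow_lt_succ (κ₀ + (h' + H)) (q i)
      exact h4.trans_le (tow_mono_left (by omega) _)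
    have h5 : ((tow (κ₀ + (h' + H) + (m + 1)) (q i) : ℕ) : ℝ)⁻¹ <
        ((tow (κ₀ + (h' + H)) (q i) : ℕ) : ℝ)⁻¹ := by
      apply inv_strictAnti₀ (htpos _)
      exact_mod_cast h3
    linarith
  choose u w v hv huv hwv hz using hmain
  refine ⟨u, w, v, hv, fun j k => ?_, fun j => ?_, hz⟩
  · rw [tendsto_iff_norm_sub_tendsto_zero]
    refine squeeze_zero (fun m => norm_nonneg _) (fun m => ?_)
      tendsto_one_div_add_atTop_nhds_zero_nat
    rw [Real.norm_eq_abs, abs_sub_comm]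
    exact huv m j k
  · rw [tendsto_iff_norm_sub_tendsto_zero]
    refine squeeze_zero (fun m => norm_nonneg _) (fun m => ?_)
      tendsto_one_div_add_atTop_nhds_zero_nat
    rw [Real.norm_eq_abs, abs_sub_comm]
    exact hwv m j

end Pool.Agent.P8H4.KM
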